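import Pool.Agent.H69.HT2

set_option autoImplicit false

namespace Pool.Agent.Results.MP_9803f8_al.NotWeaklyGeometric

open Pool.Agent.H69.HT

theorem result :
    ∃ (G H : Type) (_ : Group G) (_ : Group H) (S : Finset G) (T : Finset H),
      Subgroup.closure (S : Set G) = ⊤ ∧ Subgroup.closure (T : Set H) = ⊤ ∧
      HighlyTransitive H ∧
      QuasiIsometric (SimpleGraph.mulCayley (S : Set G)) (SimpleGraph.mulCayley (T : Set H)) ∧
      ∀ (K : Type) [Group K], Commensurable G K → ¬ HighlyTransitive K :=
  final

end Pool.Agent.Results.MP_9803f8_al.NotWeaklyGeometric
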